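import Pool.Agent.Q255.IR.Stm

/-!
# IR-STEER (project IR of helper255, MP_3283e1_nt)
-/

set_option autoImplicit false

namespace Pool.Agent.Q124.IR

open Filter Topology MeasureTheory Pool.Agent.Q255.IC Pool.Agent.Q255.IR

/-- the block of an index -/
theorem exists_block (N : ℕ → ℕ) (hN : StrictMono N) (J n : ℕ) (h : N J ≤ n) :
    ∃ j, J ≤ j ∧ N j ≤ n ∧ n < N (j + 1) := by
  have hex : ∃ k, n < N k := ⟨n + 1, lt_of_lt_of_le (Nat.lt_succ_self n) (hN.id_le (n + 1))⟩
  classical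
  obtain ⟨k, hk, hmin⟩ : ∃ k, n < N k ∧ ∀ m, m < k → ¬ n < N m :=
    ⟨Nat.find hex, Nat.find_spec hex, fun m hm => Nat.find_min hex hm⟩
  have hJk : J < k := by
    by_contra hcon
    push Not at hcon
    have := hN.monotone hcon
    omega
  refine ⟨k - 1, by omega, ?_, ?_⟩
  · have := hmin (k - 1) (by omega)
    omega
  · have : k - 1 + 1 = k := by omega
    rw [this]
    exact hk

/-- a nonnegative sequence which decreases by `σ_j / 4` unless it is small tends to `0` -/
theorem dec_tendsto (u σ : ℕ → ℝ) (j₀ : ℕ) (hu : ∀ j, 0 ≤ u j) (hσ0 : ∀ j, j₀ ≤ j → 0 ≤ σ j)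
    (hσ : Tendsto σ atTop (𝓝 0)) (hsum : Tendsto (fun J => ∑ j ∈ Finset.range J, σ j) atTop atTop)
    (hstep : ∀ j, j₀ ≤ j → u (j + 1) ≤ max (u j - σ j / 4) (7 * σ j)) : Tendsto u atTop (𝓝 0) := by
  rw [Metric.tendsto_atTop]
  intro ε hε
  have h1 : ∀ᶠ j in atTop, 7 * σ j < ε / 2 := by
    have : Tendsto (fun j => 7 * σ j) atTop (𝓝 (7 * 0)) := hσ.const_mul 7
    rw [mul_zero] at this
    exact this.eventually_lt_const (by linarith)
  obtain ⟨J₁, hJ₁⟩ := eventually_atTop.1 h1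
  obtain ⟨J, hJ, hJ'⟩ : ∃ J, J₁ ≤ J ∧ j₀ ≤ J := ⟨max J₁ j₀, le_max_left _ _, le_max_right _ _⟩
  have hex : ∃ j, J ≤ j ∧ u j ≤ ε / 2 := by
    by_contra hcon
    push Not at hcon
    have hind : ∀ m, u (J + m) ≤ u J - (∑ j ∈ Finset.range (J + m), σ j - ∑ j ∈ Finset.range J, σ j) / 4 := by
      intro m
      induction m with
      | zero => simp
      | succ m ih =>
        have h2 := hstep (J + m) (by omega)
        have h3 := hcon (J + m + 1) (by omega)
        have h4 := hJ₁ (J + m) (by omega)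
        have h5 : u (J + m + 1) ≤ u (J + m) - σ (J + m) / 4 := by
          rcases le_max_iff.1 h2 with h | h
          · exact h
          · linarith
        rw [show J + (m + 1) = J + m + 1 by ring, Finset.sum_range_succ]
        linarith
    have h2 : ∀ᶠ M in atTop, 4 * u J + ∑ j ∈ Finset.range J, σ j + 1 ≤ ∑ j ∈ Finset.range M, σ j :=
      hsum.eventually_ge_atTop _
    obtain ⟨M, hM⟩ := eventually_atTop.1 h2
    have h3 := hM (J + M) (by omega)
    have h4 := hind M
    have h5 := hu (J + M)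
    linarith
  obtain ⟨j₁, hj₁, hj₂⟩ := hex
  have hall : ∀ m, u (j₁ + m) ≤ ε / 2 := by
    intro m
    induction m with
    | zero => simpa using hj₂
    | succ m ih =>
      have h2 := hstep (j₁ + m) (by omega)
      have h4 := hJ₁ (j₁ + m) (by omega)
      have h5 := hσ0 (j₁ + m) (by omega)
      rw [show j₁ + (m + 1) = j₁ + m + 1 by ring]
      refine h2.trans (max_le (by linarith) h4.le)
  refine ⟨j₁, fun n hn => ?_⟩
  have h2 := hall (n - j₁)
  rw [show j₁ + (n - j₁) = n by omega] at h2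
  rw [Real.dist_eq, sub_zero, abs_of_nonneg (hu n)]
  linarith

theorem V_mono (b : ℕ → ℝ) : Monotone (V b) := by
  intro m n h
  unfold V
  exact Finset.sum_le_sum_of_subset_of_nonneg (Finset.range_subset_range.2 h) fun _ _ _ => sq_nonneg _

/-- **STEER** -/
theorem t_STEER : S_STEER := by
  intro b ρ l N T ω hN hT0 hT hV hsum hS
  obtain ⟨v, hv⟩ : ∃ v : ℕ → ℝ, ∀ j, v j = V b (N (j + 1)) - V b (N j) := ⟨_, fun _ => rfl⟩
  obtain ⟨e, he⟩ : ∃ e : ℕ → ℝ, ∀ j, e j = S b ω (N j) + ρ * V b (N j) - l := ⟨_, fun _ => rfl⟩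
  have hv0 : ∀ j, 0 ≤ v j := fun j => by
    rw [hv]
    linarith [V_mono b (hN.monotone (Nat.le_succ j))]
  have hsq : ∀ j, √(v j) * √(v j) = v j := fun j => Real.mul_self_sqrt (hv0 j)
  have hsqT : ∀ j, 1 ≤ j → √(T j) ≤ √(v j) ∧ √(v j) ≤ √2 * √(T j) := by
    intro j hj
    have h := hV j hj
    rw [← hv] at h
    refine ⟨Real.sqrt_le_sqrt h.1, ?_⟩
    rw [← Real.sqrt_mul (by norm_num)]
    exact Real.sqrt_le_sqrt h.2
  have hTs : Tendsto (fun j => √2 * √(T j)) atTop (𝓝 0) := by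
    have h1 : Tendsto (fun j => √(T j)) atTop (𝓝 (√0)) := (Real.continuous_sqrt.tendsto 0).comp hT
    rw [Real.sqrt_zero] at h1
    have h2 := h1.const_mul (√2)
    rwa [mul_zero] at h2
  have hσ : Tendsto (fun j => √(v j)) atTop (𝓝 0) := by
    refine squeeze_zero' (Eventually.of_forall fun j => Real.sqrt_nonneg _) ?_ hTs
    filter_upwards [eventually_ge_atTop 1] with j hj
    exact (hsqT j hj).2
  have hsumσ : Tendsto (fun J => ∑ j ∈ Finset.range J, √(v j)) atTop atTop := by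
    refine tendsto_atTop_mono' _ ?_ (tendsto_atTop_add_const_right _ (-√(T 0)) hsum)
    filter_upwards [eventually_ge_atTop 1] with J hJ
    obtain ⟨M, rfl⟩ : ∃ M, J = M + 1 := ⟨J - 1, by omega⟩
    rw [Finset.sum_range_succ', Finset.sum_range_succ']
    have h1 : ∑ k ∈ Finset.range M, √(T (k + 1)) ≤ ∑ k ∈ Finset.range M, √(v (k + 1)) :=
      Finset.sum_le_sum fun k _ => (hsqT (k + 1) (by omega)).1
    have h2 := Real.sqrt_nonneg (v 0)
    linarith
  -- `|ρ| v ≤ √v / 4` for large `j`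
  have hρ : ∀ᶠ j in atTop, |ρ| * v j ≤ √(v j) / 4 := by
    have h1 : Tendsto (fun j => |ρ| * √(v j)) atTop (𝓝 (|ρ| * 0)) := hσ.const_mul _
    rw [mul_zero] at h1
    filter_upwards [h1.eventually_lt_const (show (0 : ℝ) < 1 / 4 by norm_num)] with j hj
    have h2 := Real.sqrt_nonneg (v j)
    have h3 : |ρ| * v j = |ρ| * √(v j) * √(v j) := by rw [mul_assoc, hsq]
    rw [h3]
    nlinarith
  obtain ⟨j₁, hj₁⟩ := eventually_atTop.1 hρ
  have hstepS : ∀ j, max j₁ 1 ≤ j → |e (j + 1)| ≤ max (|e j| - √(v j) / 4) (7 * √(v j)) := by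
    intro j hj
    have hj1 : 1 ≤ j := le_trans (le_max_right _ _) hj
    have hj2 := hj₁ j (le_trans (le_max_left _ _) hj)
    obtain ⟨h1, h2, h3, h4⟩ := hS j hj1
    rw [← hv] at h1 h2
    rw [← he] at h3 h4
    have h5 := h2 (N (j + 1)) (hN.monotone (Nat.le_succ j)) le_rfl
    have h6 : e (j + 1) = e j + (S b ω (N (j + 1)) - S b ω (N j)) + ρ * v j := by
      rw [he, he, hv]
      ring
    have h7 : |ρ * v j| ≤ √(v j) / 4 := by
      rw [abs_mul, abs_of_nonneg (hv0 j)]
      exact hj2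
    have h8 := abs_le.1 h7
    have h9 := abs_le.1 h5
    have h10 := Real.sqrt_nonneg (v j)
    rcases le_or_gt 0 (e j) with h | h
    · have h11 := h3 h
      rw [abs_of_nonpos h11] at h1
      rw [abs_of_nonneg h]
      rcases le_or_gt 0 (e (j + 1)) with h12 | h12
      · rw [abs_of_nonneg h12]
        exact le_trans (by linarith) (le_max_left _ _)
      · rw [abs_of_neg h12]
        exact le_trans (by linarith) (le_max_right _ _)
    · have h11 := h4 h
      rw [abs_of_nonneg h11] at h1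
      rw [abs_of_neg h]
      rcases le_or_gt 0 (e (j + 1)) with h12 | h12
      · rw [abs_of_nonneg h12]
        exact le_trans (by linarith) (le_max_right _ _)
      · rw [abs_of_neg h12]
        exact le_trans (by linarith) (le_max_left _ _)
  have hlim := dec_tendsto (fun j => |e j|) (fun j => √(v j)) (max j₁ 1) (fun j => abs_nonneg _)
    (fun j _ => Real.sqrt_nonneg _) hσ hsumσ hstepS
  rw [Metric.tendsto_atTop]
  intro ε hε
  have e1 : ∀ᶠ j in atTop, |e j| < ε / 2 := hlim.eventually_lt_const (by linarith)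
  have e2 : ∀ᶠ j in atTop, 7 * √(v j) < ε / 2 := by
    have : Tendsto (fun j => 7 * √(v j)) atTop (𝓝 (7 * 0)) := hσ.const_mul 7
    rw [mul_zero] at this
    exact this.eventually_lt_const (by linarith)
  obtain ⟨J, hJ⟩ := eventually_atTop.1 ((e1.and e2).and (hρ.and (eventually_ge_atTop 1)))
  refine ⟨N J, fun n hn => ?_⟩
  obtain ⟨j, hj1, hj2, hj3⟩ := exists_block N hN J n hn
  obtain ⟨⟨h1, h2⟩, h3, h4⟩ := hJ j hj1
  have h5 := (hS j h4).2.1 n hj2 hj3.le
  rw [← hv] at h5
  have h6 : 0 ≤ V b n - V b (N j) := by linarith [V_mono b hj2]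
  have h7 : V b n - V b (N j) ≤ v j := by
    rw [hv]
    linarith [V_mono b hj3.le]
  have h8 : |ρ * (V b n - V b (N j))| ≤ √(v j) / 4 := by
    rw [abs_mul, abs_of_nonneg h6]
    exact (mul_le_mul_of_nonneg_left h7 (abs_nonneg ρ)).trans h3
  have h9 : S b ω n + ρ * V b n - l = e j + (S b ω n - S b ω (N j)) + ρ * (V b n - V b (N j)) := by
    rw [he]
    ring
  have h10 := Real.sqrt_nonneg (v j)
  rw [Real.dist_eq, h9]
  calc |e j + (S b ω n - S b ω (N j)) + ρ * (V b n - V b (N j))|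
      ≤ |e j + (S b ω n - S b ω (N j))| + |ρ * (V b n - V b (N j))| := abs_add_le _ _
    _ ≤ |e j| + |S b ω n - S b ω (N j)| + |ρ * (V b n - V b (N j))| := by
        gcongr
        exact abs_add_le _ _
    _ < ε := by linarith

end Pool.Agent.Q124.IR
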