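import Pool.Agent.Q255.IR.Stm
import Pool.Agent.Q124.IR.Steer

/-!
# IR-FREE (project IR of helper255, MP_3283e1_nt)
-/

set_option autoImplicit false

namespace Pool.Agent.Q124.IR

open Filter Topology MeasureTheory Pool.Agent.Q255.IC Pool.Agent.Q255.IR

/-- `∑ ± b` over a part of a block -/
theorem block_sum (f : ℕ → ℝ) (a L m : ℕ) (hm : m ≤ L) :
    ∑ k ∈ Finset.range (a + m), f k - ∑ k ∈ Finset.range a, f k =
      ∑ i : Fin L, if (i : ℕ) < m then f (a + i) else 0 := by
  rw [Finset.sum_range_add_sub_sum_range]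
  rw [Fin.sum_univ_eq_sum_range (fun i => if i < m then f (a + i) else 0) L, ← Finset.sum_filter]
  refine Finset.sum_congr ?_ fun _ _ => rfl
  ext i
  simp only [Finset.mem_range, Finset.mem_filter]
  omega

/-- the error after the word `s` -/
noncomputable def er (b : ℕ → ℝ) (ρ l : ℝ) (N : ℕ) (s : Fin N → Bool) : ℝ :=
  (∑ k : Fin N, (if s k then (1 : ℝ) else -1) * b k) + ρ * V b N - l

theorem er_eq (b : ℕ → ℝ) (ρ l : ℝ) (N : ℕ) (ω : ℕ → Bool) :
    er b ρ l N (fun k : Fin N => ω k) = S b ω N + ρ * V b N - l := by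
  unfold er S sg
  rw [Fin.sum_univ_eq_sum_range (fun k => (if ω k then (1 : ℝ) else -1) * b k) N]

open Classical in
/-- the continuations of the word `s` whose new part is `± η`, `η ∈ G` -/
noncomputable def cont (b : ℕ → ℝ) (ρ l : ℝ) (a a' : ℕ) (haa : a < a') (G : Finset (Fin (a' - a) → Bool))
    (s : Fin a → Bool) : Finset (Fin a' → Bool) :=
  Finset.univ.filter fun t => (∀ (k : ℕ) (h : k < a), t ⟨k, by omega⟩ = s ⟨k, h⟩) ∧
    (fun i : Fin (a' - a) => xor (decide (0 ≤ er b ρ l a s)) (t ⟨a + i, by omega⟩)) ∈ G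

theorem card_cont (b : ℕ → ℝ) (ρ l : ℝ) (a a' : ℕ) (haa : a < a') (G : Finset (Fin (a' - a) → Bool))
    (s : Fin a → Bool) : G.card ≤ (cont b ρ l a a' haa G s).card := by
  classical
  refine Finset.card_le_card_of_injOn (fun η => fun k : Fin a' => if h : (k : ℕ) < a then s ⟨k, h⟩ else
    xor (decide (0 ≤ er b ρ l a s)) (η ⟨k - a, by omega⟩)) ?_ ?_
  · intro η hη
    unfold cont
    rw [Finset.mem_coe, Finset.mem_filter]
    refine ⟨Finset.mem_univ _, fun k hk => ?_, ?_⟩
    · simp only [hk, dite_true]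
    · have : (fun i : Fin (a' - a) => xor (decide (0 ≤ er b ρ l a s))
          ((fun k : Fin a' => if h : (k : ℕ) < a then s ⟨k, h⟩ else
            xor (decide (0 ≤ er b ρ l a s)) (η ⟨k - a, by omega⟩)) ⟨a + i, by omega⟩)) = η := by
        funext i
        have h1 : ¬ (a + (i : ℕ) < a) := by omega
        have h2 : (⟨a + (i : ℕ) - a, by omega⟩ : Fin (a' - a)) = i := Fin.ext (by simp)
        simp only [h1, dite_false]
        rw [h2, ← Bool.xor_assoc, Bool.xor_self, Bool.false_xor]
      rw [this]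
      exact hη
  · intro η₁ _ η₂ _ h
    funext i
    have h1 : ¬ (a + (i : ℕ) < a) := by omega
    have h2 : (⟨a + (i : ℕ) - a, by omega⟩ : Fin (a' - a)) = i := Fin.ext (by simp)
    have h3 := congrFun h ⟨a + i, by omega⟩
    simp only [h1, dite_false] at h3
    rw [h2] at h3
    revert h3
    cases decide (0 ≤ er b ρ l a s) <;> cases η₁ i <;> cases η₂ i <;> simp

/-- **FREE** -/
theorem t_FREE (hPAT : S_PAT) (hTREE : S_TREE) (hCLOCK : S_CLOCK) (hSTEER : S_STEER) : S_FREE := by
  intro b ψ ρ l hb hV hψ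
  obtain ⟨p₀, hp0, hp1, hpat⟩ := hPAT
  have hlog : 0 ≤ Real.log (1 / p₀) := Real.log_nonneg (by rw [le_div_iff₀ hp0]; linarith)
  obtain ⟨N, T, hN0, hN, hT0, hT, hVT, hsum, hnum⟩ := hCLOCK b ψ (Real.log (1 / p₀) + 1) hb hV hψ (by linarith)
  have hlt : ∀ j, N j < N (j + 1) := fun j => hN (Nat.lt_succ_self j)
  have hpat' : ∀ j, ∃ G : Finset (Fin (N (j + 1) - N j) → Bool),
      p₀ * 2 ^ (N (j + 1) - N j) ≤ (G.card : ℝ) ∧ ∀ s ∈ G,
      √(∑ i : Fin (N (j + 1) - N j), b (N j + i) ^ 2) / 2 ≤
        ∑ i : Fin (N (j + 1) - N j), (if s i then (1 : ℝ) else -1) * b (N j + i) ∧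
        ∀ m : ℕ, |∑ i : Fin (N (j + 1) - N j), if (i : ℕ) < m then (if s i then (1 : ℝ) else -1) * b (N j + i) else 0| ≤
          6 * √(∑ i : Fin (N (j + 1) - N j), b (N j + i) ^ 2) :=
    fun j => hpat (N (j + 1) - N j) (fun i => b (N j + i))
  choose G hG1 hG2 using hpat'
  obtain ⟨ν, hν, hae, hD⟩ := hTREE p₀ N (fun j s => cont b ρ l (N j) (N (j + 1)) (hlt j) (G j) s) hp0 hp1 hN0 hN
    (by
      intro j s t ht k h1 h2
      unfold cont at ht
      rw [Finset.mem_filter] at ht
      exact ht.2.1 k h1)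
    (by
      intro j s
      refine (hG1 j).trans ?_
      exact_mod_cast card_cont b ρ l (N j) (N (j + 1)) (hlt j) (G j) s)
  refine ⟨ν, hν, ?_, ?_⟩
  · filter_upwards [hnum] with n hn
    obtain ⟨j, -, hj1, hj2⟩ := exists_block N hN 0 n (by rw [hN0]; exact Nat.zero_le n)
    refine (hD j n hj1 hj2.le).trans (le_trans ?_ (hn j hj1))
    have : (0 : ℝ) ≤ (j : ℝ) + 1 := by positivity
    nlinarith
  · filter_upwards [hae] with ω hω
    refine hSTEER b ρ l N T ω hN hT0 hT hVT hsum fun j _ => ?_
    have h1 := hω j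
    unfold cont at h1
    rw [Finset.mem_filter] at h1
    have h2 := h1.2.2
    obtain ⟨h3, h4⟩ := hG2 j _ h2
    have hL : N j + (N (j + 1) - N j) = N (j + 1) := by
      have := hlt j
      omega
    have hv : ∑ i : Fin (N (j + 1) - N j), b (N j + i) ^ 2 = V b (N (j + 1)) - V b (N j) := by
      have h5 := block_sum (fun k => b k ^ 2) (N j) (N (j + 1) - N j) (N (j + 1) - N j) le_rfl
      rw [hL] at h5
      unfold V
      rw [h5]
      refine Finset.sum_congr rfl fun i _ => ?_
      rw [if_pos i.2]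
    rw [hv] at h3 h4
    rw [er_eq] at h3 h4
    have hS : ∀ n, N j ≤ n → n ≤ N (j + 1) → S b ω n - S b ω (N j) =
        ∑ i : Fin (N (j + 1) - N j), if (i : ℕ) < n - N j then sg ω (N j + i) * b (N j + i) else 0 := by
      intro n hn1 hn2
      have h5 := block_sum (fun k => sg ω k * b k) (N j) (N (j + 1) - N j) (n - N j) (by omega)
      rw [show N j + (n - N j) = n by omega] at h5
      exact h5
    have hfull : ∀ f : Fin (N (j + 1) - N j) → ℝ, ∑ i : Fin (N (j + 1) - N j),
        (if (i : ℕ) < N (j + 1) - N j then f i else 0) = ∑ i, f i := by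
      intro f
      refine Finset.sum_congr rfl fun i _ => ?_
      rw [if_pos i.2]
    have hv0 := Real.sqrt_nonneg (V b (N (j + 1)) - V b (N j))
    by_cases hc : 0 ≤ S b ω (N j) + ρ * V b (N j) - l
    · have hsgn : ∀ i : Fin (N (j + 1) - N j),
          (if xor (decide (0 ≤ S b ω (N j) + ρ * V b (N j) - l)) (ω (N j + i)) then (1 : ℝ) else -1) =
            -sg ω (N j + i) := by
        intro i
        rw [decide_eq_true hc]
        unfold sg
        cases ω (N j + i) <;> simp
      simp only [hsgn] at h3 h4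
      have h5 : S b ω (N (j + 1)) - S b ω (N j) =
          -∑ i : Fin (N (j + 1) - N j), -sg ω (N j + i) * b (N j + i) := by
        rw [hS (N (j + 1)) (hlt j).le le_rfl, hfull, ← Finset.sum_neg_distrib]
        refine Finset.sum_congr rfl fun i _ => by ring
      refine ⟨?_, ?_, ?_, ?_⟩
      · rw [h5, abs_neg]
        exact h3.trans (le_abs_self _)
      · intro n hn1 hn2
        have h6 := h4 (n - N j)
        rw [hS n hn1 hn2]
        have h7 : (∑ i : Fin (N (j + 1) - N j), if (i : ℕ) < n - N j then -sg ω (N j + i) * b (N j + i) else 0) =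
            -∑ i : Fin (N (j + 1) - N j), if (i : ℕ) < n - N j then sg ω (N j + i) * b (N j + i) else 0 := by
          rw [← Finset.sum_neg_distrib]
          refine Finset.sum_congr rfl fun i _ => ?_
          split_ifs
          · ring
          · simp
        rw [h7, abs_neg] at h6
        exact h6
      · intro _
        rw [h5]
        linarith
      · intro h
        linarith
    · have hsgn : ∀ i : Fin (N (j + 1) - N j),
          (if xor (decide (0 ≤ S b ω (N j) + ρ * V b (N j) - l)) (ω (N j + i)) then (1 : ℝ) else -1) =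
            sg ω (N j + i) := by
        intro i
        rw [decide_eq_false hc]
        unfold sg
        cases ω (N j + i) <;> simp
      simp only [hsgn] at h3 h4
      have h5 : S b ω (N (j + 1)) - S b ω (N j) =
          ∑ i : Fin (N (j + 1) - N j), sg ω (N j + i) * b (N j + i) := by
        rw [hS (N (j + 1)) (hlt j).le le_rfl, hfull]
      refine ⟨?_, ?_, ?_, ?_⟩
      · rw [h5]
        exact h3.trans (le_abs_self _)
      · intro n hn1 hn2
        rw [hS n hn1 hn2]
        exact h4 (n - N j)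
      · intro h
        exact absurd h hc
      · intro _
        rw [h5]
        linarith

end Pool.Agent.Q124.IR
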