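import Pool.Agent.Q255.IR.Stm
import Pool.Agent.H341R2.NF.ECCount

/-!
# IR-HAS and IR-PR1 (project IR of helper255, MP_3283e1_nt)
-/

set_option autoImplicit false

namespace Pool.Agent.Q124.IR

open Filter Topology MeasureTheory Pool.Agent.Q255.IC Pool.Agent.Q255.IR

/-- the affine points -/
theorem has_big {a b : ℤ} {p : ℕ} (h : Good a b p) (h5 : 5 ≤ p) : |aP a b p| ≤ 2 * √p := by
  obtain ⟨hp, hnd⟩ := h
  have : Fact p.Prime := ⟨hp⟩
  have h2 : (2 : ZMod p) ≠ 0 := by
    intro h0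
    have : ((2 : ℕ) : ZMod p) = 0 := by exact_mod_cast h0
    rw [ZMod.natCast_eq_zero_iff] at this
    have := Nat.le_of_dvd (by norm_num) this
    omega
  have h3 : (3 : ZMod p) ≠ 0 := by
    intro h0
    have : ((3 : ℕ) : ZMod p) = 0 := by exact_mod_cast h0
    rw [ZMod.natCast_eq_zero_iff] at this
    have := Nat.le_of_dvd (by norm_num) this
    omega
  have h6 : (6 : ZMod p) ≠ 0 := by
    rw [show (6 : ZMod p) = 2 * 3 by norm_num]
    exact mul_ne_zero h2 h3
  have h27 : (27 : ZMod p) ≠ 0 := by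
    rw [show (27 : ZMod p) = 3 ^ 3 by norm_num]
    exact pow_ne_zero _ h3
  have h54 : (54 : ZMod p) ≠ 0 := by
    rw [show (54 : ZMod p) = 2 * 27 by norm_num]
    exact mul_ne_zero h2 h27
  obtain ⟨c, hc⟩ : ∃ c : ZMod p, c = -(a : ZMod p) / 27 := ⟨_, rfl⟩
  obtain ⟨c', hc'⟩ : ∃ c' : ZMod p, c' = -(b : ZMod p) / 54 := ⟨_, rfl⟩
  have hca : -27 * c = (a : ZMod p) := by rw [hc]; field_simp
  have hcb : -54 * c' = (b : ZMod p) := by rw [hc']; field_simp
  have hΔ : (4 * (a : ZMod p) ^ 3 + 27 * (b : ZMod p) ^ 2) ≠ 0 := by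
    intro h0
    apply hnd
    have h1 : ((4 * a ^ 3 + 27 * b ^ 2 : ℤ) : ZMod p) = 0 := by
      push_cast
      exact h0
    rw [ZMod.intCast_zmod_eq_zero_iff_dvd] at h1
    exact h1.mul_left 2
  have hcc : c ^ 3 - c' ^ 2 ≠ 0 := by
    intro h0
    apply hΔ
    rw [← hca, ← hcb]
    linear_combination (-78732 : ZMod p) * h0
  have e1 : numPoints a b p = Pool.Agent.H341R2.EC.short c c' + 1 := by
    unfold numPoints Pool.Agent.H341R2.EC.short
    congr 2
    have : ∀ q : ZMod p × ZMod p, (q.2 ^ 2 = q.1 ^ 3 + (a : ZMod p) * q.1 + (b : ZMod p)) =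
        (q.2 ^ 2 = q.1 ^ 3 - 27 * c * q.1 - 54 * c') := by
      intro q
      rw [← hca, ← hcb]
      congr 1; ring
    simp only [this]
  have e2 := Pool.Agent.H341R2.EC.short_eq h6 c c'
  have e3 := Pool.Agent.H341R2.EC.csum_bound h6 hcc
  rw [ZMod.card] at e2
  rw [ZMod.card] at e3
  have e4 : aP a b p = -(Pool.Agent.H341R2.EC.csum c c' : ℝ) := by
    have h7 : ((Pool.Agent.H341R2.EC.short c c' : ℤ) : ℝ) = ((p + Pool.Agent.H341R2.EC.csum c c' : ℤ) : ℝ) := by
      rw [e2]; rfl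
    unfold aP
    rw [e1]
    push_cast at h7 ⊢
    linarith
  rw [e4, abs_neg]
  exact e3

/-- **HAS** -/
theorem t_HAS : S_HAS := by
  intro A B p _ hg
  rcases Nat.lt_or_ge p 5 with h5 | h5
  · have hp2 : p ≠ 2 := by
      rintro rfl
      exact hg.2 ⟨_, rfl⟩
    have hp4 : p ≠ 4 := by
      rintro rfl
      exact absurd hg.1 (by norm_num)
    have hp3 : p = 3 := by
      have := hg.1.two_le
      omega
    subst hp3
    have hc : numPoints A B 3 ≤ 7 := by
      have hle : ∀ a b : ZMod 3, (Finset.univ.filter fun q : ZMod 3 × ZMod 3 =>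
          q.2 ^ 2 = q.1 ^ 3 + a * q.1 + b).card ≤ 6 := by decide
      unfold numPoints
      rw [Nat.card_eq_fintype_card, Fintype.card_subtype]
      exact Nat.succ_le_succ (hle _ _)
    have hc' : (numPoints A B 3 : ℝ) ≤ 7 := by exact_mod_cast hc
    have hc0 : 1 ≤ numPoints A B 3 := by
      unfold numPoints
      omega
    have hc1 : (1 : ℝ) ≤ numPoints A B 3 := by exact_mod_cast hc0
    have h3 : (3 / 2 : ℝ) ≤ √((3 : ℕ) : ℝ) := by
      rw [Real.le_sqrt' (by norm_num)]
      norm_num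
    unfold aP
    rw [abs_le]
    constructor <;> push_cast at * <;> linarith
  · exact has_big hg h5

theorem good_three {A B : ℤ} {p : ℕ} (h : Good A B p) : 3 ≤ p := by
  have h2 := h.1.two_le
  rcases Nat.lt_or_ge p 3 with h3 | h3
  · exfalso
    have : p = 2 := by omega
    subst this
    exact h.2 ⟨_, rfl⟩
  · exact h3

/-- both factors are positive -/
theorem fac_pos {A B : ℤ} {p : ℕ} (hH : |aP A B p| ≤ 2 * √p) (hg : Good A B p) :
    0 < (p : ℝ) + 1 + aP A B p ∧ 0 < (p : ℝ) + 1 - aP A B p := by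
  have h3 : (3 : ℝ) ≤ p := by exact_mod_cast good_three hg
  have hs : √(p : ℝ) ^ 2 = p := Real.sq_sqrt (by linarith)
  have h1 : 1 < √(p : ℝ) := by
    rw [Real.lt_sqrt (by norm_num)]
    linarith
  have h4 : 0 < (√(p : ℝ) - 1) ^ 2 := by
    have : 0 < √(p : ℝ) - 1 := by linarith
    positivity
  have h5 := abs_le.1 hH
  constructor
  · nlinarith [h5.1]
  · nlinarith [h5.2]

theorem le_pr (k : ℕ) : k ≤ pr k := by
  unfold pr
  exact (Nat.nth_strictMono Nat.infinite_setOfPred_prime).id_le k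

open Classical in
/-- the relative size of `a_p` -/
noncomputable def uE (A B : ℤ) (k : ℕ) : ℝ := if Good A B (pr k) then aP A B (pr k) / (pr k + 1) else 0

theorem uE_tendsto (hH : S_HAS) {A B : ℤ} (hd : 4 * A ^ 3 + 27 * B ^ 2 ≠ 0) : Tendsto (uE A B) atTop (𝓝 0) := by
  have hlim : Tendsto (fun k : ℕ => 2 / √(k : ℝ)) atTop (𝓝 0) := by
    have h1 : Tendsto (fun k : ℕ => √(k : ℝ)) atTop atTop :=
      Real.tendsto_sqrt_atTop.comp tendsto_natCast_atTop_atTop
    exact h1.const_div_atTop 2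
  refine squeeze_zero_norm' ?_ hlim
  filter_upwards [eventually_ge_atTop 1] with k hk
  have hk0 : (0 : ℝ) < k := by exact_mod_cast hk
  unfold uE
  split_ifs with h
  · have hp := pr_pos k
    have hkp : (k : ℝ) ≤ pr k := by exact_mod_cast le_pr k
    have h1 := hH A B _ hd h
    rw [Real.norm_eq_abs, abs_div, abs_of_pos (by linarith : (0 : ℝ) < (pr k : ℝ) + 1)]
    have hs : 0 < √(k : ℝ) := Real.sqrt_pos.2 hk0
    have hsp : 0 < √(pr k : ℝ) := Real.sqrt_pos.2 hp
    have hs2 : √(k : ℝ) ≤ √(pr k : ℝ) := Real.sqrt_le_sqrt hkp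
    have hsq : √(pr k : ℝ) ^ 2 = pr k := Real.sq_sqrt hp.le
    rw [div_le_div_iff₀ (by linarith) hs]
    calc |aP A B (pr k)| * √(k : ℝ) ≤ (2 * √(pr k : ℝ)) * √(pr k : ℝ) := by gcongr
      _ = 2 * pr k := by rw [mul_assoc, ← sq, hsq]
      _ ≤ 2 * (pr k + 1) := by linarith
  · simp only [norm_zero]
    positivity

theorem bE_eq {A B : ℤ} (k : ℕ) :
    bE A B k = Real.log ((1 + uE A B k) / (1 - uE A B k)) / 2 := by
  unfold bE uE
  split_ifs with h
  · have hp := pr_pos k
    have hp1 : (pr k : ℝ) + 1 ≠ 0 := by linarith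
    congr 2
    rw [show (1 : ℝ) + aP A B (pr k) / (pr k + 1) = (pr k + 1 + aP A B (pr k)) / (pr k + 1) by field_simp,
      show (1 : ℝ) - aP A B (pr k) / (pr k + 1) = (pr k + 1 - aP A B (pr k)) / (pr k + 1) by field_simp,
      div_div_div_cancel_right₀ hp1]
  · simp

theorem bE_tendsto (hH : S_HAS) {A B : ℤ} (hd : 4 * A ^ 3 + 27 * B ^ 2 ≠ 0) :
    Tendsto (bE A B) atTop (𝓝 0) := by
  have h1 : ContinuousAt (fun u : ℝ => Real.log ((1 + u) / (1 - u)) / 2) 0 := by
    have h2 : ContinuousAt (fun u : ℝ => (1 + u) / (1 - u)) 0 := by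
      apply ContinuousAt.div
      · fun_prop
      · fun_prop
      · norm_num
    have h3 : ContinuousAt (fun u : ℝ => Real.log ((1 + u) / (1 - u))) 0 := by
      apply ContinuousAt.log h2
      norm_num
    exact h3.div_const 2
  have h2 := h1.tendsto.comp (uE_tendsto hH hd)
  have h3 : Real.log ((1 + (0 : ℝ)) / (1 - 0)) / 2 = 0 := by norm_num
  rw [h3] at h2
  refine h2.congr fun k => ?_
  rw [bE_eq]
  rfl

/-- **PR1** -/
theorem t_PR1 (hH : S_HAS) : S_PR1 := by
  intro A B hd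
  refine ⟨bE_tendsto hH hd, fun ω x => ?_⟩
  have hpos : ∀ k : ℕ, Good A B (pr k) →
      0 < ((pr k : ℝ) + 1 - sg ω k * aP A B (pr k)) / pr k := by
    intro k hk
    have h1 := fac_pos (hH A B _ hd hk) hk
    have hp := pr_pos k
    apply div_pos _ hp
    unfold sg
    split_ifs
    · rw [one_mul]; exact h1.2
    · linarith [h1.1]
  classical
  have hpos' : ∀ k : ℕ, 0 < (if Good A B (pr k) then
      ((pr k : ℝ) + 1 - sg ω k * aP A B (pr k)) / pr k else 1) := by
    intro k
    split_ifs with h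
    · exact hpos k h
    · exact one_pos
  constructor
  · unfold P
    exact Finset.prod_pos fun k _ => by convert hpos' k
  · unfold P mE S
    rw [Real.log_prod (fun k _ => by have := (hpos' k).ne'; convert this), ← Finset.sum_sub_distrib]
    refine Finset.sum_congr rfl fun k _ => ?_
    unfold bE
    split_ifs with h
    · obtain ⟨h1, h2⟩ := fac_pos (hH A B _ hd h) h
      have hp := pr_pos k
      have e1 : Real.log (((pr k : ℝ) + 1 + aP A B (pr k)) * (pr k + 1 - aP A B (pr k)) / (pr k : ℝ) ^ 2) =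
          Real.log ((pr k : ℝ) + 1 + aP A B (pr k)) + Real.log ((pr k : ℝ) + 1 - aP A B (pr k)) -
            2 * Real.log (pr k) := by
        rw [Real.log_div (mul_pos h1 h2).ne' (by positivity), Real.log_mul h1.ne' h2.ne', Real.log_pow]
        push_cast
        ring
      rw [e1, Real.log_div h1.ne' h2.ne']
      unfold sg
      split_ifs
      · rw [one_mul, one_mul, Real.log_div h2.ne' hp.ne']
        ring
      · rw [show (pr k : ℝ) + 1 - -1 * aP A B (pr k) = pr k + 1 + aP A B (pr k) by ring,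
          Real.log_div h1.ne' hp.ne']
        ring
    · simp

end Pool.Agent.Q124.IR
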